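import Pool.Agent.Q181.CC.Main

set_option autoImplicit false

open MeasureTheory

namespace Pool.Agent.Results.MP_5351bf_an.ProductWithIdentity

open Pool.Agent.Q181.CC

/-- For every characteristic class `F`, every ergodic automorphism `A` and every standard
probability space `(Y, ν)`: the largest factor algebras `𝒟` of `A` and `𝒟₂` of `A × Id_Y` with
factor in `F` exist, and modulo null sets `𝒟₂` is the product of `𝒟` and of the σ-algebra
of `Y`. -/
theorem result (F : Autom → Prop) (hF : CharClass F) (A : Autom) (_hA : Ergodic A.T A.μ)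
    (Y : Type) [mY : MeasurableSpace Y] [StandardBorelSpace Y] (ν : Measure Y)
    [IsProbabilityMeasure ν] :
    ∃ (𝒟 : MeasurableSpace A.Z) (𝒟₂ : MeasurableSpace (A.Z × Y)),
      IsLargestAlg F A 𝒟 ∧ IsLargestAlg F (prodId A Y ν) 𝒟₂ ∧
      ∀ E : Set (A.Z × Y), MeasurableSet[𝒟₂] E ↔ MeasurableSet[(prodId A Y ν).ms] E ∧
        ∃ E' : Set (A.Z × Y), MeasurableSet[MeasurableSpace.prod 𝒟 mY] E' ∧
          E =ᵐ[(prodId A Y ν).μ] E' := by
  obtain ⟨𝒟, h1, _⟩ := exists_largest hF A
  obtain ⟨𝒟₂, h2, _⟩ := exists_largest hF (prodId A Y ν)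
  exact ⟨𝒟, 𝒟₂, h1, h2, fun E => main hF A h1 h2 E⟩

end Pool.Agent.Results.MP_5351bf_an.ProductWithIdentity
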